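import Pool.Agent.LogMono.Core

namespace Pool.Agent.Results.MP_363c0e_nt.MonotoneDoubling

open Pool.Agent.LogMono

open Classical in
/-- **Logarithms with nearly monotone doubling.** For `k ≥ 2` some logarithm of length `k` has its
doubling increasing (decreasing) on the upper half exactly when `k + 1` (`2 k + 1`) is prime, and
other abelian groups give no further `k`. If the doubling is monotone on a block missing `r`
elements of the upper half and `k ≥ 16 (r + 1) ^ 2`, then a prime lies within `2 r` of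
`2 ⌊k/2⌋ + 1` or of `2 k + 1`; so for every `r` the class has `O(x / log x)` elements up to `x`. -/
theorem result :
    (∀ k : ℕ, 2 ≤ k →
      ((∃ f : ℕ → ZMod k, IsLog k f ∧ IncreasesOn k f (k / 2) k) ↔ (k + 1).Prime) ∧
      ((∃ f : ℕ → ZMod k, IsLog k f ∧ DecreasesOn k f (k / 2) k) ↔ (2 * k + 1).Prime) ∧
      (NearlyMonotone 0 k ↔ (k + 1).Prime ∨ (2 * k + 1).Prime)) ∧
    (∀ r k : ℕ, 16 * (r + 1) ^ 2 ≤ k → NearlyMonotone r k →
      ∃ p : ℕ, p.Prime ∧ (|(p : ℤ) - (2 * ((k / 2 : ℕ) : ℤ) + 1)| ≤ 2 * r ∨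
        |(p : ℤ) - (2 * (k : ℤ) + 1)| ≤ 2 * r)) ∧
    (∀ r x : ℕ, ((Finset.range (x + 1)).filter (fun k => NearlyMonotone r k)).card ≤
      16 * (r + 1) ^ 2 + (6 * r + 8) * Nat.primeCounting (2 * x + 1 + 2 * r)) ∧
    (∀ r : ℕ, ∃ C : ℝ, ∀ᶠ x : ℕ in Filter.atTop,
      (((Finset.range (x + 1)).filter (fun k => NearlyMonotone r k)).card : ℝ) ≤
        C * x / Real.log x) := by
  refine ⟨?_, ?_, count_bound, density⟩
  · intro k hk
    refine ⟨⟨?_, exists_log_of_prime hk⟩, ⟨?_, exists_log_of_prime' hk⟩, nearlyMonotone_zero hk⟩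
    · rintro ⟨f, hf, h⟩
      exact prime_of_increasing hk hf h
    · rintro ⟨f, hf, h⟩
      exact prime_of_decreasing hk hf h
  · intro r k hk h
    obtain ⟨p, hp, h1⟩ := prime_near hk h
    refine ⟨p, hp, ?_⟩
    rcases h1 with h1 | h1
    · left; rw [abs_le]; omega
    · right; rw [abs_le]; omega

end Pool.Agent.Results.MP_363c0e_nt.MonotoneDoubling
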