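import Pool.Agent.LogMono.OneMult

namespace Pool.Agent.Results.MP_363c0e_nt.OneMultiplier

open Pool.Agent.LogMono

open Classical in
/-- **One modular multiplier.** Let `f` be a logarithmic function of length `k`, injective on
`{1, …, k}`, with values in any abelian group, and `2 ≤ m ≤ k`. If `m` acts as multiplication
modulo `k + 1` (modulo `2 k + 1` up to sign), then `k + 1` (`2 k + 1`) is prime. If the modulus is
odd, composite and prime to `m`, at least `(√(k + 1) - 3) / 8` (`(√(2 k + 1) - 5) / 16`) of the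
`n ≤ k` break the rule. -/
theorem result {A : Type*} [AddCommGroup A] {k : ℕ} {f : ℕ → A} (hf : IsLogFn k f)
    (hinj : Set.InjOn f (Set.Icc 1 k)) {m : ℕ} (hm : 2 ≤ m) (hmk : m ≤ k) :
    ((∀ n ∈ Set.Icc 1 k, (m * n) % (k + 1) ≠ 0 → f ((m * n) % (k + 1)) = f m + f n) →
      (k + 1).Prime) ∧
    ((∀ n ∈ Set.Icc 1 k, (m * n) % (2 * k + 1) ≠ 0 →
        f (nearDist (2 * k + 1) (m * n)) = f m + f n) →
      (2 * k + 1).Prime) ∧
    (Even k → ¬ (k + 1).Prime → Nat.Coprime m (k + 1) →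
      k + 1 ≤ (8 * ((Finset.Icc 1 k).filter
        (fun n => f ((m * n) % (k + 1)) ≠ f m + f n)).card + 3) ^ 2) ∧
    (¬ (2 * k + 1).Prime → Nat.Coprime m (2 * k + 1) →
      2 * k + 1 ≤ (16 * ((Finset.Icc 1 k).filter
        (fun n => f (nearDist (2 * k + 1) (m * n)) ≠ f m + f n)).card + 5) ^ 2) :=
  ⟨prime_of_rule hf hinj hm hmk, prime_of_rule' hf hinj hm hmk,
    fun hk hp hc => gap hf hinj hm hmk hk hp hc, fun hp hc => gap' hf hinj hm hmk hp hc⟩

end Pool.Agent.Results.MP_363c0e_nt.OneMultiplier
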